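import Mathlib

set_option autoImplicit false

/-! Growth of integer polynomials and the sign pattern on one window. -/

namespace Pool.Agent.Q183.BV

open Polynomial Finset

theorem growth (P : ℤ[X]) (hP : 2 ≤ P.natDegree) :
    ∃ C : ℕ, 0 < C ∧ (∀ n : ℕ, 1 ≤ n → |P.eval (n : ℤ)| ≤ C * (n : ℤ) ^ P.natDegree) ∧
      (∀ n : ℕ, C ≤ n → (n : ℤ) ^ P.natDegree ≤ 2 * |P.eval (n : ℤ)|) := by
  set d := P.natDegree with hd
  set S : ℕ := ∑ i ∈ range (d + 1), (P.coeff i).natAbs with hS
  have hlead : P.coeff d ≠ 0 := by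
    rw [hd, coeff_natDegree]
    intro h
    rw [leadingCoeff_eq_zero] at h
    have h' := hP
    rw [hd, h] at h'
    simp at h'
  refine ⟨2 * S + 1, by positivity, ?_, ?_⟩
  · intro n hn
    rw [eval_eq_sum_range, ← hd]
    calc |∑ i ∈ range (d + 1), P.coeff i * (n : ℤ) ^ i|
        ≤ ∑ i ∈ range (d + 1), |P.coeff i * (n : ℤ) ^ i| := abs_sum_le_sum_abs _ _
      _ ≤ ∑ i ∈ range (d + 1), ((P.coeff i).natAbs : ℤ) * (n : ℤ) ^ d := by
          refine sum_le_sum fun i hi => ?_
          rw [abs_mul, abs_pow, Int.abs_eq_natAbs (P.coeff i)]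
          refine mul_le_mul_of_nonneg_left ?_ (by positivity)
          rw [Nat.abs_cast]
          exact pow_le_pow_right₀ (by exact_mod_cast hn) (by
            have := mem_range.mp hi; omega)
      _ = (S : ℤ) * (n : ℤ) ^ d := by rw [← sum_mul, hS]; push_cast; rfl
      _ ≤ ((2 * S + 1 : ℕ) : ℤ) * (n : ℤ) ^ d := by
          refine mul_le_mul_of_nonneg_right ?_ (by positivity)
          push_cast; linarith [show (0 : ℤ) ≤ S by positivity]
  · intro n hn
    have hn1 : 1 ≤ n := by omega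
    rw [eval_eq_sum_range, ← hd, sum_range_succ]
    have h1 : |∑ i ∈ range d, P.coeff i * (n : ℤ) ^ i| ≤ (S : ℤ) * (n : ℤ) ^ (d - 1) := by
      calc |∑ i ∈ range d, P.coeff i * (n : ℤ) ^ i|
          ≤ ∑ i ∈ range d, |P.coeff i * (n : ℤ) ^ i| := abs_sum_le_sum_abs _ _
        _ ≤ ∑ i ∈ range d, ((P.coeff i).natAbs : ℤ) * (n : ℤ) ^ (d - 1) := by
            refine sum_le_sum fun i hi => ?_
            rw [abs_mul, abs_pow, Int.abs_eq_natAbs (P.coeff i)]
            refine mul_le_mul_of_nonneg_left ?_ (by positivity)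
            rw [Nat.abs_cast]
            exact pow_le_pow_right₀ (by exact_mod_cast hn1) (by
              have := mem_range.mp hi; omega)
        _ ≤ (S : ℤ) * (n : ℤ) ^ (d - 1) := by
            rw [← sum_mul, hS]
            refine mul_le_mul_of_nonneg_right ?_ (by positivity)
            push_cast
            exact sum_le_sum_of_subset_of_nonneg (range_mono (by omega)) fun i _ _ => by positivity
    have h2 : (S : ℤ) * (n : ℤ) ^ (d - 1) * 2 ≤ (n : ℤ) ^ d := by
      have e : (n : ℤ) ^ d = n * (n : ℤ) ^ (d - 1) := by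
        rw [← pow_succ']; congr 1; omega
      rw [e]
      have h3 : (2 * (S : ℤ)) ≤ n := by exact_mod_cast (by omega : 2 * S ≤ n)
      nlinarith [show (0 : ℤ) ≤ (n : ℤ) ^ (d - 1) by positivity]
    have h4 : (n : ℤ) ^ d ≤ |P.coeff d * (n : ℤ) ^ d| := by
      rw [abs_mul, abs_of_nonneg (show (0 : ℤ) ≤ (n : ℤ) ^ d by positivity)]
      have : 1 ≤ |P.coeff d| := Int.one_le_abs hlead
      nlinarith [show (0 : ℤ) ≤ (n : ℤ) ^ d by positivity]
    have h5 : |P.coeff d * (n : ℤ) ^ d| ≤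
        |∑ i ∈ range d, P.coeff i * (n : ℤ) ^ i + P.coeff d * (n : ℤ) ^ d| +
        |∑ i ∈ range d, P.coeff i * (n : ℤ) ^ i| := by
      have := abs_sub (∑ i ∈ range d, P.coeff i * (n : ℤ) ^ i + P.coeff d * (n : ℤ) ^ d)
        (∑ i ∈ range d, P.coeff i * (n : ℤ) ^ i)
      simpa using this
    linarith

/-- One window: on `[0, L)` the averages of a `±1` function along `x + P(n)` alternate in sign at the scales
`B^(K+1), ..., B^(K+K)`, all of which are at most `L`. -/
theorem window (P : ℤ[X]) (hP : 2 ≤ P.natDegree) :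
    ∃ B₀ : ℕ, 2 ≤ B₀ ∧ ∀ B : ℕ, B₀ ≤ B → 8 ∣ B → ∀ K : ℕ, ∃ (R : ℕ) (s : ℤ → ℝ),
      2 * B ^ (2 * K) ≤ R ∧
      (∀ y, |s y| = 1) ∧
      (∀ x : ℤ, 0 ≤ x → x < (B : ℤ) ^ (2 * K) → ∀ n : ℕ, 1 ≤ n → n ≤ B ^ (2 * K) →
        |x + P.eval (n : ℤ)| ≤ R) ∧
      ∀ x : ℤ, 0 ≤ x → x < (B : ℤ) ^ (2 * K) → ∀ j : ℕ, 1 ≤ j → j ≤ K →
        3 / 4 * ((B ^ (K + j) : ℕ) : ℝ) ≤
          (-1) ^ j * ∑ n ∈ Icc 1 (B ^ (K + j)), s (x + P.eval (n : ℤ)) := by
  obtain ⟨C, hC0, hC1, hC2⟩ := growth P hP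
  set d := P.natDegree with hd
  refine ⟨8 * (2 * C + 8), by omega, ?_⟩
  rintro B hB ⟨B', rfl⟩ K
  have hB' : 2 * C + 8 ≤ B' := by omega
  set B := 8 * B' with hBdef
  set L : ℤ := (B : ℤ) ^ (2 * K) with hL
  have hBge : (1 : ℤ) ≤ B := by exact_mod_cast (by omega : 1 ≤ B)
  have hL0 : 0 < L := pow_pos (by linarith) _
  -- thresholds
  set T : ℕ → ℤ := fun j => C * ((B : ℤ) ^ (K + j)) ^ d + L with hT
  have hTmono : Monotone T := by
    intro i j hij
    simp only [hT]
    have : ((B : ℤ) ^ (K + i)) ^ d ≤ ((B : ℤ) ^ (K + j)) ^ d :=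
      pow_le_pow_left₀ (by positivity) (pow_le_pow_right₀ hBge (by omega)) _
    nlinarith [show (0 : ℤ) ≤ C by positivity]
  have hex : ∀ y : ℤ, ∃ j : ℕ, |y| ≤ T j := by
    intro y
    refine ⟨y.natAbs, ?_⟩
    have h1 : (y.natAbs : ℤ) ≤ (B : ℤ) ^ (K + y.natAbs) := by
      have : y.natAbs < B ^ (K + y.natAbs) :=
        lt_of_lt_of_le (Nat.lt_pow_self (by omega)) (Nat.pow_le_pow_right (by omega) (by omega))
      exact_mod_cast this.le
    have h2 : (B : ℤ) ^ (K + y.natAbs) ≤ ((B : ℤ) ^ (K + y.natAbs)) ^ d :=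
      le_self_pow₀ (one_le_pow₀ hBge) (by omega)
    have h3 : (1 : ℤ) ≤ C := by exact_mod_cast hC0
    rw [Int.abs_eq_natAbs]
    simp only [hT]
    nlinarith [show (0 : ℤ) ≤ ((B : ℤ) ^ (K + y.natAbs)) ^ d by positivity]
  classical
  refine ⟨2 * B ^ (2 * K) + C * (B ^ (2 * K)) ^ d, fun y => (-1) ^ (Nat.find (hex y)), by omega, ?_, ?_, ?_⟩
  · intro y
    rw [abs_pow]; simp
  · intro x hx0 hxL n hn1 hnL
    have h1 : |P.eval (n : ℤ)| ≤ C * ((B : ℤ) ^ (2 * K)) ^ d := by
      refine (hC1 n hn1).trans ?_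
      refine mul_le_mul_of_nonneg_left ?_ (by positivity)
      exact pow_le_pow_left₀ (by positivity) (by exact_mod_cast hnL) _
    have h2 : |x + P.eval (n : ℤ)| ≤ |x| + |P.eval (n : ℤ)| := abs_add_le _ _
    rw [abs_of_nonneg hx0] at h2
    push_cast
    linarith
  · intro x hx0 hxL j hj1 hjK
    -- the sign is right for `n` in the top part
    have key : ∀ n ∈ Icc 1 (B ^ (K + j)), B ^ (K + j) ≤ 8 * n →
        Nat.find (hex (x + P.eval (n : ℤ))) = j := by
      intro n hn hn8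
      obtain ⟨hn1, hn2⟩ := mem_Icc.mp hn
      rw [Nat.find_eq_iff]
      constructor
      · have h1 : |P.eval (n : ℤ)| ≤ C * ((B : ℤ) ^ (K + j)) ^ d := by
          refine (hC1 n hn1).trans ?_
          refine mul_le_mul_of_nonneg_left ?_ (by positivity)
          exact pow_le_pow_left₀ (by positivity) (by exact_mod_cast hn2) _
        have h2 : |x + P.eval (n : ℤ)| ≤ |x| + |P.eval (n : ℤ)| := abs_add_le _ _
        rw [abs_of_nonneg hx0] at h2
        simp only [hT]
        linarith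
      · intro i hi
        rw [not_le]
        refine lt_of_le_of_lt (hTmono (by omega : i ≤ j - 1)) ?_
        -- lower bound for |P n|
        have hm : B ^ (K + j) = 8 * (B' * B ^ (K + (j - 1))) := by
          have : K + j = (K + (j - 1)) + 1 := by omega
          rw [this, pow_succ]
          simp only [hBdef]; ring_nf
        have hn3 : B' * B ^ (K + (j - 1)) ≤ n := by
          have := hn8; rw [hm] at this; omega
        set M : ℤ := (B : ℤ) ^ (K + (j - 1)) with hM
        have hM1 : 1 ≤ M := one_le_pow₀ hBge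
        have hn3' : (B' : ℤ) * M ≤ n := by
          have : ((B' * B ^ (K + (j - 1)) : ℕ) : ℤ) ≤ n := by exact_mod_cast hn3
          simpa [hM] using this
        have hCn : C ≤ n := by
          have : (C : ℤ) ≤ n := by
            have hb : (C : ℤ) ≤ B' := by exact_mod_cast (by omega : C ≤ B')
            nlinarith
          exact_mod_cast this
        have h1 := hC2 n hCn
        have h2 : ((B' : ℤ) * M) ^ d ≤ (n : ℤ) ^ d := pow_le_pow_left₀ (by positivity) hn3' _
        have h3 : (2 * (C : ℤ) + 8) * M ^ d ≤ ((B' : ℤ) * M) ^ d := by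
          rw [mul_pow]
          refine mul_le_mul_of_nonneg_right ?_ (by positivity)
          calc (2 * (C : ℤ) + 8) ≤ B' := by exact_mod_cast hB'
            _ ≤ (B' : ℤ) ^ d := le_self_pow₀ (by
                have : (8 : ℤ) ≤ B' := by exact_mod_cast (by omega : 8 ≤ B')
                linarith) (by omega)
        have h4 : L ≤ M ^ d := by
          calc L = ((B : ℤ) ^ K) ^ 2 := by rw [hL, ← pow_mul]; ring_nf
            _ ≤ M ^ 2 := pow_le_pow_left₀ (by positivity)
                (pow_le_pow_right₀ hBge (by omega)) _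
            _ ≤ M ^ d := pow_le_pow_right₀ hM1 hP
        have h5 : |P.eval (n : ℤ)| ≤ |x + P.eval (n : ℤ)| + |x| := by
          have := abs_sub (x + P.eval (n : ℤ)) x
          simpa using this
        rw [abs_of_nonneg hx0] at h5
        have h6 : T (j - 1) = C * M ^ d + L := rfl
        rw [h6]
        nlinarith
    have hterm : ∀ n ∈ Icc 1 (B ^ (K + j)),
        (1 : ℝ) - 2 * (if 8 * n < B ^ (K + j) then 1 else 0) ≤
          (-1) ^ j * (-1) ^ (Nat.find (hex (x + P.eval (n : ℤ)))) := by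
      intro n hn
      split_ifs with h
      · rw [← pow_add]
        rcases neg_one_pow_eq_or ℝ (j + Nat.find (hex (x + P.eval (n : ℤ)))) with h' | h' <;>
          rw [h'] <;> norm_num
      · rw [key n hn (by omega), ← pow_add, ← two_mul, pow_mul]
        norm_num
    rw [mul_sum]
    refine le_trans ?_ (sum_le_sum hterm)
    rw [sum_sub_distrib, ← mul_sum, sum_boole]
    have hcard : ((Icc 1 (B ^ (K + j))).filter fun n => 8 * n < B ^ (K + j)).card ≤
        B ^ (K + j) / 8 := by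
      calc _ ≤ (Icc 1 (B ^ (K + j) / 8)).card := by
            refine card_le_card fun n hn => ?_
            rw [mem_filter, mem_Icc] at hn
            rw [mem_Icc]
            omega
        _ = _ := by simp
    have hcard' : ((((Icc 1 (B ^ (K + j))).filter fun n => 8 * n < B ^ (K + j)).card : ℕ) : ℝ) ≤
        ((B ^ (K + j) : ℕ) : ℝ) / 8 := by
      have h1 : ((B ^ (K + j) / 8 : ℕ) : ℝ) ≤ ((B ^ (K + j) : ℕ) : ℝ) / ((8 : ℕ) : ℝ) := Nat.cast_div_le
      have h2 : (((((Icc 1 (B ^ (K + j))).filter fun n => 8 * n < B ^ (K + j)).card : ℕ)) : ℝ) ≤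
        ((B ^ (K + j) / 8 : ℕ) : ℝ) := by exact_mod_cast hcard
      have h3 : (((8 : ℕ) : ℝ)) = 8 := by norm_num
      rw [h3] at h1
      linarith
    simp only [sum_const, Nat.card_Icc, nsmul_eq_mul, mul_one, add_tsub_cancel_right]
    linarith

end Pool.Agent.Q183.BV
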